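import Pool.Agent.S10141
import Pool.Agent.H46.Ins.Girth

/-!
# MP_9137bf_co: small graphs of large girth with half the degrees two and half three
-/

open Filter Topology

namespace Pool.Agent.Results.MP_9137bf_co.HalfDegreesThree

/-- The degree of a vertex: the number of its neighbours. -/
noncomputable def deg {V : Type*} (G : SimpleGraph V) (v : V) : ℕ := (G.neighborSet v).ncard

/-- The class `D_23`: finite connected simple graphs in which exactly half of the vertices have
degree two and the other half have degree three. -/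
structure InD23 {V : Type*} (G : SimpleGraph V) : Prop where
  finite : Finite V
  connected : G.Connected
  degree : ∀ v, deg G v = 2 ∨ deg G v = 3
  half : {v | deg G v = 2}.ncard = {v | deg G v = 3}.ncard

/-- The girth is at least `g`: every cycle has length at least `g`. -/
def GirthAtLeast {V : Type*} (G : SimpleGraph V) (g : ℕ) : Prop :=
  ∀ (v : V) (c : G.Walk v v), c.IsCycle → g ≤ c.length

/-- The numbers of vertices of the graphs in `D_23` with girth at least `g`. -/
def orders (g : ℕ) : Set ℕ :=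
  {n | ∃ (V : Type) (G : SimpleGraph V), InD23 G ∧ GirthAtLeast G g ∧ Nat.card V = n}

/-- `n(D_23, g)`: the least element of `orders g`. -/
noncomputable def minOrder (g : ℕ) : ℕ := sInf (orders g)

/-- The matrix whose spectral radius is the constant `ρ` of the problem. -/
def walkMatrix : Matrix (Fin 3) (Fin 3) ℂ := !![0, 2, 1; 0, 0, 1; 1, 0, 0]

theorem card_ge {V : Type*} {G : SimpleGraph V} (h : InD23 G) {g : ℕ} (hg : GirthAtLeast G g)
    {ρ : ℝ} (hρ : ρ ^ 3 - ρ - 2 = 0) : ρ ^ ((g - 1) / 2 : ℕ) ≤ (Nat.card V : ℝ) := by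
  classical
  have := h.finite
  have := Fintype.ofFinite V
  have : Nonempty V := h.connected.nonempty
  obtain ⟨hρ1, hρ2⟩ := S10141.rho_bounds hρ
  have hd : ∀ v, deg G v = G.degree v := by
    intro v
    unfold deg
    rw [Set.ncard_eq_toFinset_card', ← SimpleGraph.card_neighborFinset_eq_degree]
    rfl
  have hdeg : ∀ v, G.degree v = 2 ∨ G.degree v = 3 := fun v => by
    rw [← hd v]; exact h.degree v
  have h2 : {v | deg G v = 2}.ncard = (Finset.univ.filter fun v => G.degree v = 2).card := by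
    rw [← Set.ncard_coe_finset]
    congr 1
    ext v
    simp [hd]
  have h3 : {v | deg G v = 3}.ncard = (Finset.univ.filter fun v => G.degree v = 3).card := by
    rw [← Set.ncard_coe_finset]
    congr 1
    ext v
    simp [hd]
  have hhalf : 2 * (Finset.univ.filter fun v => G.degree v = 2).card = Fintype.card V := by
    have h4 := Finset.card_filter_add_card_filter_not (s := (Finset.univ : Finset V))
      (fun v => G.degree v = 2)
    have h5 : (Finset.univ.filter fun v => ¬ G.degree v = 2) =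
        (Finset.univ.filter fun v => G.degree v = 3) := by
      ext v
      simp only [Finset.mem_filter, Finset.mem_univ, true_and]
      have := hdeg v
      omega
    rw [h5, ← h3, ← h.half, h2, Finset.card_univ] at h4
    omega
  rcases Nat.eq_zero_or_pos ((g - 1) / 2) with h0 | h0
  · rw [h0, pow_zero]
    have : 0 < Nat.card V := Nat.card_pos
    exact_mod_cast this
  have hlt : ((2 * ((g - 1) / 2) : ℕ) : ℕ∞) < G.egirth := by
    have h6 : (g : ℕ∞) ≤ G.egirth := by
      rw [SimpleGraph.le_egirth]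
      intro v c hc
      exact_mod_cast hg v c hc
    refine lt_of_lt_of_le ?_ h6
    exact_mod_cast (by omega : 2 * ((g - 1) / 2) < g)
  have hb := S10141.card_bound G hρ hdeg hhalf ((g - 1) / 2) hlt
  have hc : (0 : ℝ) < Fintype.card V := by exact_mod_cast Fintype.card_pos
  rw [Nat.card_eq_fintype_card, ← Real.log_le_log_iff (pow_pos (by linarith) _) hc, Real.log_pow]
  exact hb

theorem orders_nonempty (g : ℕ) : (orders g).Nonempty := by
  obtain ⟨V, G, h1, h2, h3, h4, h5⟩ := H46.Ins.exists_graph g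
  exact ⟨Nat.card V, V, G, ⟨h1, h2, h3, h4⟩, fun v c hc => (h5 v c hc).le, rfl⟩

theorem isLeast_minOrder (g : ℕ) : IsLeast (orders g) (minOrder g) :=
  ⟨Nat.sInf_mem (orders_nonempty g), fun _ h => Nat.sInf_le h⟩

theorem root_unique {x y : ℝ} (hx : x ^ 3 - x - 2 = 0) (hy : y ^ 3 - y - 2 = 0) : x = y := by
  obtain ⟨h1, -⟩ := S10141.rho_bounds hx
  obtain ⟨h2, -⟩ := S10141.rho_bounds hy
  have h3 : (x - y) * (x ^ 2 + x * y + y ^ 2 - 1) = 0 := by linear_combination hx - hy
  rcases mul_eq_zero.1 h3 with h | h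
  · linarith
  · nlinarith

theorem exists_root : ∃ x : ℝ, x ^ 3 - x - 2 = 0 := by
  have hc : ContinuousOn (fun x : ℝ => x ^ 3 - x - 2) (Set.Icc 1 2) := by fun_prop
  have := intermediate_value_Icc (by norm_num : (1 : ℝ) ≤ 2) hc
  obtain ⟨x, -, hx⟩ := this (show (0 : ℝ) ∈ Set.Icc ((1 : ℝ) ^ 3 - 1 - 2) ((2 : ℝ) ^ 3 - 2 - 2) by
    norm_num)
  exact ⟨x, hx⟩

theorem mem_spec (z : ℂ) : z ∈ spectrum ℂ walkMatrix ↔ z ^ 3 - z - 2 = 0 := by
  rw [spectrum.mem_iff, Matrix.isUnit_iff_isUnit_det, isUnit_iff_ne_zero, not_not]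
  have h : (algebraMap ℂ (Matrix (Fin 3) (Fin 3) ℂ) z - walkMatrix).det = z ^ 3 - z - 2 := by
    rw [Matrix.algebraMap_eq_diagonal, Matrix.det_fin_three]
    simp [walkMatrix, Matrix.diagonal]
    ring
  rw [h]

theorem specRad {ρ : ℝ} (hρ : ρ ^ 3 - ρ - 2 = 0) :
    spectralRadius ℂ walkMatrix = ENNReal.ofReal ρ := by
  obtain ⟨h1, h2⟩ := S10141.rho_bounds hρ
  have h0 : 0 ≤ ρ := by linarith
  refine le_antisymm ?_ ?_
  · refine iSup₂_le fun z hz => ?_
    rw [mem_spec] at hz
    have h3 : ‖z‖ ≤ ρ := by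
      have h4 : z ^ 3 = z + 2 := by linear_combination hz
      have h5 : ‖z‖ ^ 3 ≤ ‖z‖ + 2 := by
        rw [← norm_pow, h4]
        refine (norm_add_le _ _).trans ?_
        simp
      by_contra h6
      push Not at h6
      nlinarith [norm_nonneg z, mul_pos (sub_pos.2 h6) (mul_pos (by linarith : 0 < ρ)
        (by linarith : 0 < ‖z‖)), mul_pos (sub_pos.2 h6) (pow_pos (by linarith : 0 < ρ) 2),
        mul_pos (sub_pos.2 h6) (pow_pos (by linarith : 0 < ‖z‖) 2)]
    rw [← enorm_eq_nnnorm, ← ofReal_norm]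
    exact ENNReal.ofReal_le_ofReal h3
  · have h3 : (ρ : ℂ) ∈ spectrum ℂ walkMatrix := by
      rw [mem_spec]
      exact_mod_cast hρ
    refine le_trans ?_ (le_iSup₂ (f := fun (k : ℂ) (_ : k ∈ spectrum ℂ walkMatrix) =>
      (‖k‖₊ : ENNReal)) (ρ : ℂ) h3)
    rw [← enorm_eq_nnnorm, ← ofReal_norm, Complex.norm_real, Real.norm_of_nonneg h0]

theorem result :
    -- `n(D_23, g)` is a minimum
    (∀ g : ℕ, IsLeast (orders g) (minOrder g)) ∧
    ∃ ρ : ℝ,
      -- the constant of the problem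
      spectralRadius ℂ walkMatrix = ENNReal.ofReal ρ ∧ (∀ x : ℝ, x ^ 3 - x - 2 = 0 ↔ x = ρ) ∧
      -- the bound
      (∀ g : ℕ, ρ ^ ((g : ℝ) / 2 - 1) ≤ minOrder g) ∧
      (1 : EReal) ≤ liminf
        (fun g : ℕ => ((2 * Real.log (minOrder g) / (g * Real.log ρ) : ℝ) : EReal)) atTop := by
  refine ⟨isLeast_minOrder, ?_⟩
  obtain ⟨ρ, hρ⟩ := exists_root
  obtain ⟨h1, h2⟩ := S10141.rho_bounds hρ
  have hlog : 0 < Real.log ρ := Real.log_pos (by linarith)
  have hb : ∀ g : ℕ, ρ ^ ((g : ℝ) / 2 - 1) ≤ minOrder g := by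
    intro g
    obtain ⟨V, G, hG, hg, hn⟩ := (isLeast_minOrder g).1
    have h3 := card_ge hG hg hρ
    rw [hn, ← Real.rpow_natCast] at h3
    refine le_trans (Real.rpow_le_rpow_of_exponent_le (by linarith) ?_) h3
    have h4 : g ≤ 2 * ((g - 1) / 2) + 2 := by omega
    have h5 : (g : ℝ) ≤ 2 * (((g - 1) / 2 : ℕ) : ℝ) + 2 := by exact_mod_cast h4
    linarith
  refine ⟨ρ, specRad hρ, fun x => ⟨fun hx => root_unique hx hρ, fun hx => hx ▸ hρ⟩, hb, ?_⟩
  have hlim : Tendsto (fun g : ℕ => ((1 - 2 / (g : ℝ) : ℝ) : EReal)) atTop (𝓝 (1 : EReal)) := by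
    have h3 : Tendsto (fun g : ℕ => (1 - 2 / (g : ℝ) : ℝ)) atTop (𝓝 (1 - 0)) :=
      tendsto_const_nhds.sub (tendsto_const_div_atTop_nhds_zero_nat 2)
    rw [sub_zero] at h3
    exact (continuous_coe_real_ereal.tendsto 1).comp h3
  rw [← hlim.liminf_eq]
  refine liminf_le_liminf ?_
  filter_upwards [eventually_gt_atTop 0] with g hg
  have hg' : (0 : ℝ) < g := by exact_mod_cast hg
  rw [EReal.coe_le_coe_iff, le_div_iff₀ (mul_pos hg' hlog)]
  have h3 := Real.log_le_log (Real.rpow_pos_of_pos (by linarith) _) (hb g)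
  rw [Real.log_rpow (by linarith)] at h3
  have h4 : (1 - 2 / (g : ℝ)) * (g * Real.log ρ) = 2 * (((g : ℝ) / 2 - 1) * Real.log ρ) := by
    field_simp
  rw [h4]
  linarith

end Pool.Agent.Results.MP_9137bf_co.HalfDegreesThree
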